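import Mathlib
import Pool.Agent.Helper40.Nil.Stmts

/-! Module EEC: the mean ergodic theorem from the dichotomy for extreme points. -/

set_option autoImplicit false

namespace Pool.Agent.Helper40.Nil

open Filter Topology Polynomial
open scoped ComplexConjugate InnerProductSpace FourierTransform

universe u v

theorem eec_avg_le {D : Type} {E : Type u} [NormedAddCommGroup E] [NormedSpace ℂ E]
    (S : Finset D) (a : D → E) (C : ℝ) (hC : 0 ≤ C) (h : ∀ x, ‖a x‖ ≤ C) : ‖avg S a‖ ≤ C := by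
  unfold avg
  rw [norm_smul, norm_inv]
  have h1 : ‖(S.card : ℂ)‖ = S.card := by simp
  rw [h1]
  have h2 : ‖∑ x ∈ S, a x‖ ≤ S.card * C := by
    refine (norm_sum_le _ _).trans ?_
    refine (Finset.sum_le_sum fun x _ => h x).trans ?_
    simp
  rcases Nat.eq_zero_or_pos S.card with h3 | h3
  · rw [h3]; simpa using hC
  · have h4 : (0 : ℝ) < S.card := by exact_mod_cast h3
    rw [inv_mul_le_iff₀ h4]
    exact h2

/-- the action on the cyclic vector -/
theorem eec_inner_inv {V : Type u} [Group V] {E : Type v} [NormedAddCommGroup E]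
    [InnerProductSpace ℂ E] (π : V →* (E ≃ₗᵢ[ℂ] E)) (g h : V) (x y : E) :
    ⟪π g⁻¹ x, π h⁻¹ y⟫_ℂ = ⟪x, π (g * h⁻¹) y⟫_ℂ := by
  rw [← (π g).inner_map_map (π g⁻¹ x) (π h⁻¹ y)]
  have h1 : ∀ z : E, π g (π g⁻¹ z) = z := by
    intro z
    have h2 : (π g * π g⁻¹) z = z := by
      rw [← map_mul, mul_inv_cancel, map_one]; rfl
    exact h2
  have h3 : π g (π h⁻¹ y) = π (g * h⁻¹) y := by
    rw [map_mul]; rfl
  rw [h1, h3]

theorem eec_inner_inv' {V : Type u} [Group V] {E : Type v} [NormedAddCommGroup E]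
    [InnerProductSpace ℂ E] (π : V →* (E ≃ₗᵢ[ℂ] E)) (g : V) (x y : E) :
    ⟪π g⁻¹ x, y⟫_ℂ = ⟪x, π g y⟫_ℂ := by
  have h := eec_inner_inv π g 1 x y
  simpa using h

theorem eec_inner_pair {V : Type u} [Group V] {E : Type v} [NormedAddCommGroup E]
    [InnerProductSpace ℂ E] (π : V →* (E ≃ₗᵢ[ℂ] E)) (g h : V) (x y : E) :
    ⟪π g x, π h y⟫_ℂ = ⟪x, π (g⁻¹ * h) y⟫_ℂ := by
  have h1 := eec_inner_inv π g⁻¹ h⁻¹ x y
  simpa using h1

theorem eec_double {D : Type} {V : Type u} [Group V] {E : Type v} [NormedAddCommGroup E]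
    [InnerProductSpace ℂ E] (π : V →* (E ≃ₗᵢ[ℂ] E)) (ζ : E) (S : Finset D) (w : D → V)
    (φ : V → ℂ) (hφ : ∀ x, φ x = ⟪ζ, π x ζ⟫_ℂ) :
    avg (S ×ˢ S) (fun p : D × D => φ (w p.2 * (w p.1)⁻¹)) =
      ((‖avg S (fun x => π (w x)⁻¹ ζ)‖ ^ 2 : ℝ) : ℂ) := by
  have h1 : ((‖avg S (fun x => π (w x)⁻¹ ζ)‖ ^ 2 : ℝ) : ℂ) =
      ⟪avg S (fun x => π (w x)⁻¹ ζ), avg S (fun x => π (w x)⁻¹ ζ)⟫_ℂ := by
    rw [inner_self_eq_norm_sq_to_K]
    push_cast
    rfl
  rw [h1]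
  unfold avg
  rw [inner_smul_left, inner_smul_right, sum_inner]
  simp only [inner_sum]
  rw [Finset.sum_product, Finset.sum_comm]
  have h2 : ∀ x y : D, ⟪π (w y)⁻¹ ζ, π (w x)⁻¹ ζ⟫_ℂ = φ (w y * (w x)⁻¹) := by
    intro x y
    rw [eec_inner_inv, hφ]
  simp only [h2, smul_eq_mul, Finset.card_product, Nat.cast_mul, map_inv₀, Complex.conj_natCast]
  rw [mul_inv]
  ring

/-- the vector `T ζ` -/
theorem eec_norm_T {V : Type u} [Group V] {E : Type v} [NormedAddCommGroup E]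
    [InnerProductSpace ℂ E] (π : V →* (E ≃ₗᵢ[ℂ] E)) (ζ : E) (s : Finset V) (c : V → ℝ)
    (φ : V → ℂ) (hφ : ∀ x, φ x = ⟪ζ, π x ζ⟫_ℂ) :
    ((‖∑ l ∈ s, (c l : ℂ) • π l ζ‖ ^ 2 : ℝ) : ℂ) =
      ∑ x ∈ s, ∑ y ∈ s, (c x : ℂ) * c y * φ (x⁻¹ * y) := by
  have h1 : ((‖∑ l ∈ s, (c l : ℂ) • π l ζ‖ ^ 2 : ℝ) : ℂ) =
      ⟪∑ l ∈ s, (c l : ℂ) • π l ζ, ∑ l ∈ s, (c l : ℂ) • π l ζ⟫_ℂ := by
    rw [inner_self_eq_norm_sq_to_K]
    push_cast
    rfl
  rw [h1, sum_inner]
  refine Finset.sum_congr rfl fun x _ => ?_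
  rw [inner_sum]
  refine Finset.sum_congr rfl fun y _ => ?_
  rw [inner_smul_left, inner_smul_right, eec_inner_pair, hφ, Complex.conj_ofReal]
  ring

/-- the functional in a representation -/
theorem eec_f {D : Type} {V : Type u} [Group V] {E : Type v} [NormedAddCommGroup E]
    [InnerProductSpace ℂ E] (π : V →* (E ≃ₗᵢ[ℂ] E)) (ζ : E) (S : Finset D) (w : D → V)
    (s : Finset V) (c : V → ℝ) (φ : V → ℂ) (hφ : ∀ x, φ x = ⟪ζ, π x ζ⟫_ℂ) :
    avg S (fun x => φ (w x) - ∑ l ∈ s, (c l : ℂ) * φ (w x * l)) =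
      ⟪avg S (fun x => π (w x)⁻¹ ζ), ζ - ∑ l ∈ s, (c l : ℂ) • π l ζ⟫_ℂ := by
  unfold avg
  rw [inner_smul_left, sum_inner]
  have h2 : ∀ x : D, ⟪π (w x)⁻¹ ζ, ζ - ∑ l ∈ s, (c l : ℂ) • π l ζ⟫_ℂ =
      φ (w x) - ∑ l ∈ s, (c l : ℂ) * φ (w x * l) := by
    intro x
    rw [inner_sub_right, eec_inner_inv', ← hφ, inner_sum]
    congr 1
    refine Finset.sum_congr rfl fun l _ => ?_
    rw [inner_smul_right, eec_inner_inv', hφ]
    have h3 : π (w x) (π l ζ) = π (w x * l) ζ := by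
      rw [map_mul]; rfl
    rw [h3]
  simp only [h2, smul_eq_mul, map_inv₀, Complex.conj_natCast]

theorem eec_pw {V : Type u} [Group V] (e f : ℕ) (h : e ∣ f) : pw V f ≤ pw V e := by
  obtain ⟨k, rfl⟩ := h
  unfold pw
  rw [Subgroup.closure_le]
  rintro x ⟨y, rfl⟩
  apply Subgroup.subset_closure
  exact ⟨y ^ k, by change (y ^ k) ^ e = y ^ (e * k); rw [← pow_mul, mul_comm]⟩

theorem eec_unit {E : Type v} [NormedAddCommGroup E] [InnerProductSpace ℂ E] (ζ : E)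
    (h : ⟪ζ, ζ⟫_ℂ = 1) : ‖ζ‖ = 1 := by
  have h1 := inner_self_eq_norm_sq (𝕜 := ℂ) ζ
  rw [h] at h1
  have h2 : ‖ζ‖ ^ 2 = 1 := by rw [← h1]; simp
  have h6 := norm_nonneg ζ
  nlinarith

theorem eec_fix {V : Type u} [Group V] {E : Type v} [NormedAddCommGroup E]
    [InnerProductSpace ℂ E] (π : V →* (E ≃ₗᵢ[ℂ] E)) (ζ : E) (φ : V → ℂ)
    (hφ : ∀ x, φ x = ⟪ζ, π x ζ⟫_ℂ) (h1 : φ 1 = 1) (l : V) (hl : φ l = 1) : π l ζ = ζ := by
  have h2 : ‖ζ‖ ^ 2 = 1 := by
    have h3 : ⟪ζ, ζ⟫_ℂ = 1 := by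
      have h4 := hφ 1
      rw [map_one] at h4
      rw [← h1, h4]; rfl
    rw [eec_unit ζ h3, one_pow]
  have h3 : ‖π l ζ - ζ‖ ^ 2 = 0 := by
    rw [@norm_sub_sq ℂ, LinearIsometryEquiv.norm_map, h2]
    have h4 : RCLike.re ⟪π l ζ, ζ⟫_ℂ = 1 := by
      rw [← inner_conj_symm, ← hφ, hl]
      simp
    rw [h4]
    norm_num
  have h4 : ‖π l ζ - ζ‖ = 0 := by
    exact pow_eq_zero_iff (two_ne_zero) |>.1 h3
  exact sub_eq_zero.1 (norm_eq_zero.1 h4)

theorem st_EEC (hGNS : ST_GNS.{u}) (hRAIN : ST_RAIN.{u}) (hAVG : ST_AVG.{0})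
    (hPOLB : ST_POLB.{u}) (hKC : ST_KC.{u, u}) : ST_EEC.{u} := by
  intro c hWN V _ _ hcl hFG D _ hDFG Φ hΦ w hw hw0 hgen Ψ hΨ hZP
  by_contra hlim
  rw [Metric.tendsto_atTop] at hlim
  push Not at hlim
  obtain ⟨δ, hδ, hlim⟩ := hlim
  choose N hN hNδ using hlim
  have hNt : Tendsto N atTop atTop := tendsto_atTop_mono hN tendsto_id
  have hz : ∀ j : ℕ, ∃ (s : Finset V) (c : V → ℝ), (∀ x ∈ s, x ∈ pw V j.factorial ∧ 0 ≤ c x) ∧
      ∑ x ∈ s, c x = 1 ∧
      ‖∑ x ∈ s, ∑ y ∈ s, (c x : ℂ) * c y * Ψ (x⁻¹ * y)‖ ≤ (δ / 2) ^ 2 := fun j =>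
    hZP j.factorial (Nat.factorial_pos j) _ (by positivity)
  choose s t hst hst1 hstδ using hz
  set f : ℕ → (V → ℂ) → ℂ := fun j φ =>
    avg (Φ (N j)) (fun x => φ (w x) - ∑ l ∈ s j, (t j l : ℂ) * φ (w x * l)) with hf
  have hnormt : ∀ j, ∑ l ∈ s j, ‖(t j l : ℂ)‖ = 1 := by
    intro j
    rw [← hst1 j]
    refine Finset.sum_congr rfl fun l hl => ?_
    rw [Complex.norm_real, Real.norm_eq_abs, abs_of_nonneg (hst j l hl).2]
  -- linearity
  have hlin : ∀ j, IsLinearMap ℂ (f j) := by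
    intro j
    constructor
    · intro x y
      simp only [hf, avg, Pi.add_apply, mul_add, Finset.sum_add_distrib, Finset.sum_sub_distrib,
        smul_eq_mul]
      ring
    · intro a x
      simp only [hf, avg, Pi.smul_apply, smul_eq_mul, Finset.sum_sub_distrib, Finset.mul_sum,
        mul_sub]
      congr 1
      · refine Finset.sum_congr rfl fun i _ => by ring
      · refine Finset.sum_congr rfl fun i _ => Finset.sum_congr rfl fun l _ => by ring
  have hcont : ∀ j, Continuous (f j) := by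
    intro j
    simp only [hf, avg, smul_eq_mul]
    refine continuous_const.mul ?_
    refine continuous_finsetSum _ fun x _ => ?_
    refine (continuous_apply _).sub (continuous_finsetSum _ fun l _ => ?_)
    exact continuous_const.mul (continuous_apply _)
  have hK := hKC V
  have hbound : ∀ j, ∀ φ ∈ KK V, ‖f j φ‖ ≤ 2 := by
    intro j φ hφ
    refine eec_avg_le _ _ 2 (by norm_num) fun x => ?_
    refine (norm_sub_le _ _).trans ?_
    have h1 : ‖φ (w x)‖ ≤ 1 := (hK.2.2.1 φ hφ _).1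
    have h2 : ‖∑ l ∈ s j, (t j l : ℂ) * φ (w x * l)‖ ≤ 1 := by
      refine (norm_sum_le _ _).trans ?_
      rw [← hnormt j]
      refine Finset.sum_le_sum fun l _ => ?_
      rw [norm_mul]
      exact mul_le_of_le_one_right (norm_nonneg _) (hK.2.2.1 φ hφ _).1
    linarith
  -- extreme points
  have hDD : AddGroup.FG (D × D) := by
    have h1 : Module.Finite ℤ D := Module.Finite.iff_addGroup_fg.2 hDFG
    exact Module.Finite.iff_addGroup_fg.1 inferInstance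
  have hgen2 : Subgroup.closure (Set.range fun p : D × D => w p.2 * (w p.1)⁻¹) = ⊤ := by
    rw [eq_top_iff, ← hgen]
    apply Subgroup.closure_mono
    rintro x ⟨y, rfl⟩
    exact ⟨(0, y), by simp [hw0]⟩
  have hext : ∀ φ ∈ (KK V).extremePoints ℝ, Tendsto (fun j => f j φ) atTop (𝓝 0) := by
    intro φ hφ
    obtain ⟨E, i1, i2, i3, π, ζ, hg⟩ := hGNS V φ hφ.1
    have hζ : ‖ζ‖ = 1 := by
      have h3 : ⟪ζ, ζ⟫_ℂ = 1 := by
        have h4 := hg.coef 1
        rw [map_one, hφ.1.2] at h4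
        rw [h4]; rfl
      exact eec_unit ζ h3
    rcases hWN V hcl hFG (D × D) hDD (fun N => Φ N ×ˢ Φ N) (hAVG.2.1 D Φ hΦ)
      (fun p => w p.2 * (w p.1)⁻¹) (hPOLB D V w hw).2.1 (by simp) hgen2 φ hφ with h | h
    · have h1 : Tendsto (fun N => ‖avg (Φ N) (fun x => π (w x)⁻¹ ζ)‖ ^ 2) atTop (𝓝 0) := by
        have h2 : Tendsto (fun N => ‖avg (Φ N ×ˢ Φ N)
            (fun p : D × D => φ (w p.2 * (w p.1)⁻¹))‖) atTop (𝓝 0) := by
          simpa using h.norm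
        refine h2.congr fun N => ?_
        rw [eec_double π ζ (Φ N) w φ hg.coef, Complex.norm_real, Real.norm_eq_abs,
          abs_of_nonneg (by positivity)]
      have h2 : Tendsto (fun N => ‖avg (Φ N) (fun x => π (w x)⁻¹ ζ)‖) atTop (𝓝 0) := by
        have h3 := h1.sqrt
        rw [Real.sqrt_zero] at h3
        refine h3.congr fun N => ?_
        rw [Real.sqrt_sq (norm_nonneg _)]
      have h3 : Tendsto (fun j => 2 * ‖avg (Φ (N j)) (fun x => π (w x)⁻¹ ζ)‖) atTop (𝓝 0) := by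
        have h4 := (h2.comp hNt).const_mul 2
        simpa using h4
      refine squeeze_zero_norm (fun j => ?_) h3
      simp only [hf]
      rw [eec_f π ζ (Φ (N j)) w (s j) (t j) φ hg.coef]
      refine (norm_inner_le_norm _ _).trans ?_
      have h5 : ‖ζ - ∑ l ∈ s j, (t j l : ℂ) • π l ζ‖ ≤ 2 := by
        refine (norm_sub_le _ _).trans ?_
        have h6 : ‖∑ l ∈ s j, (t j l : ℂ) • π l ζ‖ ≤ 1 := by
          refine (norm_sum_le _ _).trans ?_
          rw [← hnormt j]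
          refine Finset.sum_le_sum fun l _ => ?_
          rw [norm_smul, LinearIsometryEquiv.norm_map, hζ, mul_one]
        rw [hζ]
        linarith
      rw [mul_comm]
      exact mul_le_mul_of_nonneg_right h5 (norm_nonneg _)
    · obtain ⟨e, he, h⟩ := h
      have h1 : ∀ᶠ j in atTop, f j φ = 0 := by
        filter_upwards [eventually_ge_atTop e] with j hj
        have h2 : ∀ l ∈ s j, π l ζ = ζ := by
          intro l hl
          refine eec_fix π ζ φ hg.coef hφ.1.2 l (h l ?_)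
          exact eec_pw e j.factorial (Nat.dvd_factorial he hj) (hst j l hl).1
        simp only [hf]
        rw [eec_f π ζ (Φ (N j)) w (s j) (t j) φ hg.coef]
        have h3 : ∑ l ∈ s j, (t j l : ℂ) • π l ζ = ζ := by
          have h4 : ∑ l ∈ s j, (t j l : ℂ) • π l ζ = ∑ l ∈ s j, (t j l : ℂ) • ζ :=
            Finset.sum_congr rfl fun l hl => by rw [h2 l hl]
          rw [h4, ← Finset.sum_smul]
          have h5 : ∑ l ∈ s j, (t j l : ℂ) = 1 := by
            rw [← Complex.ofReal_sum, hst1 j, Complex.ofReal_one]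
          rw [h5, one_smul]
        rw [h3, sub_self, inner_zero_right]
      exact tendsto_const_nhds.congr' (h1.mono fun j hj => hj.symm)
  have hR := hRAIN V f 2 hlin hcont hbound hext Ψ hΨ
  -- contradiction
  obtain ⟨E, i1, i2, i3, π, ζ, hg⟩ := hGNS V Ψ hΨ
  have hζ : ‖ζ‖ = 1 := by
    have h3 : ⟪ζ, ζ⟫_ℂ = 1 := by
      have h4 := hg.coef 1
      rw [map_one, hΨ.2] at h4
      rw [h4]; rfl
    exact eec_unit ζ h3
  have hlow : ∀ j, δ / 2 ≤ ‖f j Ψ‖ := by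
    intro j
    have h1 : f j Ψ = avg (Φ (N j)) (fun x => Ψ (w x)) -
        avg (Φ (N j)) (fun x => ∑ l ∈ s j, (t j l : ℂ) * Ψ (w x * l)) := by
      simp only [hf, avg, Finset.sum_sub_distrib, smul_sub]
    have h2 : ‖avg (Φ (N j)) (fun x => ∑ l ∈ s j, (t j l : ℂ) * Ψ (w x * l))‖ ≤ δ / 2 := by
      refine eec_avg_le _ _ _ (by positivity) fun x => ?_
      have h3 : ∑ l ∈ s j, (t j l : ℂ) * Ψ (w x * l) =
          ⟪π (w x)⁻¹ ζ, ∑ l ∈ s j, (t j l : ℂ) • π l ζ⟫_ℂ := by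
        rw [inner_sum]
        refine Finset.sum_congr rfl fun l _ => ?_
        rw [inner_smul_right, eec_inner_inv', hg.coef]
        have h3 : π (w x) (π l ζ) = π (w x * l) ζ := by
          rw [map_mul]; rfl
        rw [h3]
      rw [h3]
      refine (norm_inner_le_norm _ _).trans ?_
      rw [LinearIsometryEquiv.norm_map, hζ, one_mul]
      have h4 := hstδ j
      rw [← eec_norm_T π ζ (s j) (t j) Ψ hg.coef, Complex.norm_real, Real.norm_eq_abs,
        abs_of_nonneg (by positivity)] at h4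
      exact (abs_le_of_sq_le_sq' h4 (by positivity)).2
    have h3 := hNδ j
    rw [dist_zero_right] at h3
    rw [h1]
    have h4 := norm_sub_norm_le (avg (Φ (N j)) (fun x => Ψ (w x)))
      (avg (Φ (N j)) (fun x => ∑ l ∈ s j, (t j l : ℂ) * Ψ (w x * l)))
    linarith
  have h1 := hR.norm
  rw [norm_zero] at h1
  have h2 := ge_of_tendsto' h1 hlow
  linarith

end Pool.Agent.Helper40.Nil
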