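import Mathlib
import Pool.Agent.Helper40.Nil.Stmts2
import Pool.Agent.Helper40.MR.CSTc

/-! Module L1: dissociate elements give `ℓ¹`. -/

set_option autoImplicit false

namespace Pool.Agent.Helper40.Nil

open Filter Topology
open scoped ComplexConjugate InnerProductSpace ComplexOrder

universe u v w

theorem l1_inner {G : Type v} {H : Type u} [NormedAddCommGroup H] [InnerProductSpace ℂ H]
    [DecidableEq G] (ξ : G → H) (hξ : ∀ g h, ⟪ξ g, ξ h⟫_ℂ = if g = h then 1 else 0) {I : Type w}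
    (s : Finset I) (a : I → ℝ) (W W' : I → G) :
    ⟪∑ i ∈ s, (a i : ℂ) • ξ (W i), ∑ i ∈ s, (a i : ℂ) • ξ (W' i)⟫_ℂ =
      ((∑ i ∈ s, ∑ i' ∈ s, a i * a i' * (if W i = W' i' then 1 else 0) : ℝ) : ℂ) := by
  rw [sum_inner]
  push_cast
  refine Finset.sum_congr rfl fun i _ => ?_
  rw [inner_sum]
  refine Finset.sum_congr rfl fun i' _ => ?_
  rw [inner_smul_left, inner_smul_right, hξ, Complex.conj_ofReal]
  by_cases h : W i = W' i'
  · simp [h]
  · simp [h]

/-- the product over `T` -/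
def l1_F {E : Type w} [CommGroup E] {n : ℕ} (y : Fin n → E) (T : Finset (Fin n)) : E :=
  ∏ j, y j ^ (if j ∈ T then 1 else 0 : ℤ)

theorem l1_A {E : Type w} [CommGroup E] {n : ℕ} (y : Fin n → E) (hy : ∀ j, y j ≠ 1)
    (hd : ∀ η : Fin n → ℤ, (∀ j, |η j| ≤ 2) → ∏ j, y j ^ η j = 1 → ∀ j, y j ^ η j = 1)
    (T T' : Finset (Fin n)) (h : l1_F y T = l1_F y T') : T = T' := by
  have h1 := hd (fun j => (if j ∈ T then 1 else 0) - (if j ∈ T' then 1 else 0)) (fun j => by
    by_cases h1 : j ∈ T <;> by_cases h2 : j ∈ T' <;> simp [h1, h2]) (by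
    simp only [zpow_sub, Finset.prod_mul_distrib, Finset.prod_inv_distrib]
    change l1_F y T * (l1_F y T')⁻¹ = 1
    rw [h, mul_inv_cancel])
  ext j
  have h2 := h1 j
  by_cases h3 : j ∈ T <;> by_cases h4 : j ∈ T' <;> simp [h3, h4] at h2 ⊢
  · exact hy j h2
  · exact hy j h2

theorem l1_B {E : Type w} [CommGroup E] {n : ℕ} (y : Fin n → E) (hy : ∀ j, y j ≠ 1)
    (hd : ∀ η : Fin n → ℤ, (∀ j, |η j| ≤ 2) → ∏ j, y j ^ η j = 1 → ∀ j, y j ^ η j = 1)
    (j : Fin n) (T T' : Finset (Fin n)) (h : l1_F y T = y j * l1_F y T') :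
    (∀ i, i ≠ j → (i ∈ T ↔ i ∈ T')) ∧ ¬ (j ∈ T ↔ j ∈ T') := by
  have h1 := hd (fun i => (if i ∈ T then 1 else 0) - (if i ∈ T' then 1 else 0) -
    (if i = j then 1 else 0)) (fun i => by
    rcases eq_or_ne i j with h3 | h3
    · subst h3
      by_cases h1 : i ∈ T <;> by_cases h2 : i ∈ T' <;> norm_num [h1, h2]
    · by_cases h1 : i ∈ T <;> by_cases h2 : i ∈ T' <;> simp [h1, h2, h3]) (by
    simp only [zpow_sub, Finset.prod_mul_distrib, Finset.prod_inv_distrib]
    change l1_F y T * (l1_F y T')⁻¹ * (∏ i, y i ^ (if i = j then 1 else 0 : ℤ))⁻¹ = 1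
    have h2 : ∏ i, y i ^ (if i = j then 1 else 0 : ℤ) = y j := by
      rw [Finset.prod_eq_single j]
      · simp
      · intro i _ hi
        simp [hi]
      · simp
    rw [h2, h]
    simp)
  constructor
  · intro i hi
    have h2 := h1 i
    by_cases h3 : i ∈ T <;> by_cases h4 : i ∈ T' <;> simp [h3, h4, hi] at h2 ⊢
    · exact hy i h2
    · exact hy i h2
  · intro h5
    have h2 := h1 j
    by_cases h3 : j ∈ T
    · have h4 := h5.1 h3
      simp [h3, h4] at h2
      exact hy j h2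
    · have h4 : j ∉ T' := fun h4 => h3 (h5.2 h4)
      simp [h3, h4] at h2
      exact hy j h2

/-- the sign -/
def l1_e {n : ℕ} (e : Fin n → ℝ) (T : Finset (Fin n)) : ℝ := ∏ j, if j ∈ T then e j else 1

theorem l1_sq {n : ℕ} (e : Fin n → ℝ) (he : ∀ j, e j = 1 ∨ e j = -1) (T : Finset (Fin n)) :
    l1_e e T * l1_e e T = 1 := by
  unfold l1_e
  rw [← Finset.prod_mul_distrib]
  refine Finset.prod_eq_one fun i _ => ?_
  by_cases h : i ∈ T
  · rcases he i with h1 | h1 <;> simp [h, h1]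
  · simp [h]

theorem l1_sign {n : ℕ} (e : Fin n → ℝ) (he : ∀ j, e j = 1 ∨ e j = -1) (j : Fin n)
    (T T' : Finset (Fin n)) (h : ∀ i, i ≠ j → (i ∈ T ↔ i ∈ T')) (h2 : ¬ (j ∈ T ↔ j ∈ T')) :
    e j * (l1_e e T * l1_e e T') = 1 := by
  unfold l1_e
  rw [← Finset.prod_mul_distrib, Finset.prod_eq_single j]
  · by_cases h3 : j ∈ T <;> by_cases h4 : j ∈ T'
    · exact absurd ⟨fun _ => h4, fun _ => h3⟩ h2
    · rcases he j with h1 | h1 <;> simp [h3, h4, h1]
    · rcases he j with h1 | h1 <;> simp [h3, h4, h1]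
    · exact absurd ⟨fun h => absurd h h3, fun h => absurd h h4⟩ h2
  · intro i _ hi
    by_cases h3 : i ∈ T
    · have h4 := (h i hi).1 h3
      rcases he i with h1 | h1 <;> simp [h3, h4, h1]
    · have h4 : i ∉ T' := fun h4 => h3 ((h i hi).2 h4)
      simp [h3, h4]
  · simp

/-- the ordered product -/
def l1_X {D : Type v} [Group D] {n : ℕ} (x : Fin n → D) (T : Finset (Fin n)) : D :=
  ((List.finRange n).map fun j => x j ^ (if j ∈ T then 1 else 0 : ℤ)).prod

theorem l1_fX {D : Type v} [Group D] {E : Type w} [CommGroup E] (f : D →* E) {n : ℕ}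
    (x : Fin n → D) (T : Finset (Fin n)) : f (l1_X x T) = l1_F (fun j => f (x j)) T := by
  unfold l1_X l1_F
  rw [map_list_prod, List.map_map, Fin.prod_univ_def]
  congr 1
  refine List.map_congr_left fun j _ => ?_
  by_cases h : j ∈ T <;> simp [h]

theorem l1_Fins {E : Type w} [CommGroup E] {n : ℕ} (y : Fin n → E) (j : Fin n)
    (T : Finset (Fin n)) (h : j ∉ T) : l1_F y (insert j T) = y j * l1_F y T := by
  unfold l1_F
  have h1 : ∀ i, y i ^ (if i ∈ insert j T then 1 else 0 : ℤ) =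
      y i ^ (if i = j then 1 else 0 : ℤ) * y i ^ (if i ∈ T then 1 else 0 : ℤ) := by
    intro i
    by_cases h2 : i = j
    · subst h2
      simp [h]
    · simp [h2]
  rw [Finset.prod_congr rfl fun i _ => h1 i, Finset.prod_mul_distrib]
  congr 1
  rw [Finset.prod_eq_single j]
  · simp
  · intro i _ hi
    simp [hi]
  · simp

/-- the group elements -/
def l1_W {D : Type v} [Group D] {E : Type w} [CommGroup E] (f : D →* E) {n : ℕ}
    (x : Fin n → D) (p : Finset (Fin n) × f.ker) : D := l1_X x p.1 * (p.2 : D)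

theorem l1_fW {D : Type v} [Group D] {E : Type w} [CommGroup E] (f : D →* E) {n : ℕ}
    (x : Fin n → D) (p : Finset (Fin n) × f.ker) :
    f (l1_W f x p) = l1_F (fun j => f (x j)) p.1 := by
  unfold l1_W
  rw [map_mul, l1_fX, (MonoidHom.mem_ker).1 p.2.2, mul_one]

theorem l1_diag {D : Type v} [Group D] [DecidableEq D] {E : Type w} [CommGroup E] (f : D →* E)
    {n : ℕ} (x : Fin n → D) (hy : ∀ j, f (x j) ≠ 1)
    (hd : ∀ η : Fin n → ℤ, (∀ j, |η j| ≤ 2) → ∏ j, f (x j) ^ η j = 1 → ∀ j, f (x j) ^ η j = 1)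
    (e : Fin n → ℝ) (he : ∀ j, e j = 1 ∨ e j = -1) (K : Finset f.ker) :
    ∑ i ∈ Finset.univ ×ˢ K, ∑ i' ∈ Finset.univ ×ˢ K, l1_e e i.1 * l1_e e i'.1 *
      (if l1_W f x i = l1_W f x i' then 1 else 0) = (2 : ℝ) ^ n * K.card := by
  have h1 : ∀ i ∈ (Finset.univ : Finset (Finset (Fin n))) ×ˢ K,
      ∑ i' ∈ (Finset.univ : Finset (Finset (Fin n))) ×ˢ K, l1_e e i.1 * l1_e e i'.1 *
      (if l1_W f x i = l1_W f x i' then 1 else 0) = (1 : ℝ) := by
    intro i hi
    rw [Finset.sum_eq_single i]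
    · rw [if_pos rfl, mul_one, l1_sq e he]
    · intro i' _ hne
      rw [if_neg, mul_zero]
      intro h
      apply hne
      have h2 := congrArg f h
      rw [l1_fW, l1_fW] at h2
      have h3 := l1_A _ hy hd _ _ h2
      unfold l1_W at h
      rw [h3] at h
      have h4 := mul_left_cancel h
      exact (Prod.ext h3 (Subtype.ext h4)).symm
    · intro h
      exact absurd hi h
  rw [Finset.sum_congr rfl h1, Finset.sum_const, Finset.card_product, Finset.card_univ,
    Fintype.card_finset, Fintype.card_fin]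
  simp

theorem l1_off {D : Type v} [Group D] [DecidableEq D] {E : Type w} [CommGroup E] (f : D →* E)
    {n : ℕ} (x : Fin n → D) (hy : ∀ j, f (x j) ≠ 1)
    (hd : ∀ η : Fin n → ℤ, (∀ j, |η j| ≤ 2) → ∏ j, f (x j) ^ η j = 1 → ∀ j, f (x j) ^ η j = 1)
    (e : Fin n → ℝ) (he : ∀ j, e j = 1 ∨ e j = -1) (K : Finset f.ker) (ε : ℝ)
    (s : Fin n → Finset (Fin n) → f.ker)
    (hs : ∀ j T, j ∉ T → ((s j T : f.ker) : D) = (l1_X x (insert j T))⁻¹ * x j * l1_X x T)
    (hK : ∀ j T, (Nat.card {k // k ∈ K ∧ s j T * k ∉ K} : ℝ) ≤ ε * K.card) (j : Fin n) :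
    (2 : ℝ) ^ (n - 1) * ((1 - ε) * K.card) ≤
    e j * ∑ i ∈ Finset.univ ×ˢ K, ∑ i' ∈ Finset.univ ×ˢ K, l1_e e i.1 * l1_e e i'.1 *
      (if l1_W f x i = x j * l1_W f x i' then 1 else 0) := by
  classical
  have h1 : e j * ∑ i ∈ Finset.univ ×ˢ K, ∑ i' ∈ Finset.univ ×ˢ K, l1_e e i.1 * l1_e e i'.1 *
      (if l1_W f x i = x j * l1_W f x i' then 1 else 0) =
      ∑ i' ∈ Finset.univ ×ˢ K, ∑ i ∈ Finset.univ ×ˢ K,
      (if l1_W f x i = x j * l1_W f x i' then (1 : ℝ) else 0) := by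
    rw [Finset.sum_comm, Finset.mul_sum]
    refine Finset.sum_congr rfl fun i' _ => ?_
    rw [Finset.mul_sum]
    refine Finset.sum_congr rfl fun i _ => ?_
    by_cases h2 : l1_W f x i = x j * l1_W f x i'
    · rw [if_pos h2, mul_one]
      have h3 := congrArg f h2
      rw [map_mul, l1_fW, l1_fW] at h3
      obtain ⟨h4, h5⟩ := l1_B _ hy hd j _ _ h3
      exact l1_sign e he j _ _ h4 h5
    · rw [if_neg h2, mul_zero, mul_zero]
  rw [h1]
  -- lower bound of the inner sum
  have h2 : ∀ T ∈ (Finset.univ : Finset (Finset (Fin n))), ∀ k ∈ K,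
      (if j ∉ T ∧ s j T * k ∈ K then (1 : ℝ) else 0) ≤
      ∑ i ∈ (Finset.univ : Finset (Finset (Fin n))) ×ˢ K,
      (if l1_W f x i = x j * l1_W f x (T, k) then (1 : ℝ) else 0) := by
    intro T _ k _
    by_cases h3 : j ∉ T ∧ s j T * k ∈ K
    · rw [if_pos h3]
      have h4 : (insert j T, s j T * k) ∈ (Finset.univ : Finset (Finset (Fin n))) ×ˢ K := by
        simp [h3.2]
      refine le_trans ?_ (Finset.single_le_sum (f := fun i : Finset (Fin n) × f.ker =>
        (if l1_W f x i = x j * l1_W f x (T, k) then (1 : ℝ) else 0)) (fun i _ => by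
          positivity) h4)
      have h5 : l1_W f x (insert j T, s j T * k) = x j * l1_W f x (T, k) := by
        unfold l1_W
        simp only [Subgroup.coe_mul, hs j T h3.1]
        group
      rw [if_pos h5]
    · rw [if_neg h3]
      exact Finset.sum_nonneg fun i _ => by positivity
  have h3 : ∀ T ∈ (Finset.univ.erase j).powerset, (1 - ε) * (K.card : ℝ) ≤
      ∑ k ∈ K, (if j ∉ T ∧ s j T * k ∈ K then (1 : ℝ) else 0) := by
    intro T hT
    have hjT : j ∉ T := by
      intro h4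
      have h5 := Finset.mem_powerset.1 hT h4
      simp at h5
    have h4 := hK j T
    have h5 : Nat.card {k // k ∈ K ∧ s j T * k ∉ K} = (K.filter fun k => s j T * k ∉ K).card := by
      rw [Nat.card_congr (Equiv.subtypeEquivRight (q := fun k => k ∈ K.filter fun k =>
        s j T * k ∉ K) fun k => by rw [Finset.mem_filter]), Nat.card_eq_fintype_card,
        Fintype.card_coe]
    have h6 : (K.filter fun k => s j T * k ∈ K).card + (K.filter fun k => s j T * k ∉ K).card =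
        K.card := Finset.card_filter_add_card_filter_not _
    have h7 : ∑ k ∈ K, (if j ∉ T ∧ s j T * k ∈ K then (1 : ℝ) else 0) =
        ((K.filter fun k => s j T * k ∈ K).card : ℝ) := by
      rw [Finset.sum_boole]
      simp [hjT]
    have h8 : ((K.filter fun k => s j T * k ∈ K).card : ℝ) +
        ((K.filter fun k => s j T * k ∉ K).card : ℝ) = K.card := by exact_mod_cast h6
    rw [h7]
    rw [h5] at h4
    linarith
  rw [Finset.sum_product]
  have h9 : ∑ T ∈ (Finset.univ.erase j).powerset, ((1 - ε) * (K.card : ℝ)) =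
      (2 : ℝ) ^ (n - 1) * ((1 - ε) * K.card) := by
    rw [Finset.sum_const, Finset.card_powerset, Finset.card_erase_of_mem (Finset.mem_univ j),
      Finset.card_univ, Fintype.card_fin, nsmul_eq_mul]
    push_cast
    ring
  rw [← h9]
  refine (Finset.sum_le_sum h3).trans ?_
  refine le_trans ?_ (Finset.sum_le_sum fun T hT => Finset.sum_le_sum (h2 T hT))
  exact Finset.sum_le_sum_of_subset_of_nonneg (Finset.subset_univ _) fun T _ _ =>
    Finset.sum_nonneg fun k _ => by positivity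

theorem st_L1 : ST_L1.{u, v} := by
  intro A _ G _ U τ hτ hτ0 D E _ f hF n x hy hd e he
  classical
  obtain ⟨H, i1, i2, i3, π, ζ, hζ⟩ := MR.cst_exists_gns τ hτ
  have hU : ∀ g : G, star (U g : A) = (U g⁻¹ : A) := by
    intro g
    rw [map_inv, ← Unitary.star_eq_inv, Unitary.coe_star]
  set ξ : D → H := fun d => π (U (d : G) : A) ζ with hξdef
  have hξ : ∀ g h : D, ⟪ξ g, ξ h⟫_ℂ = if g = h then 1 else 0 := by
    intro g h
    have h1 : ⟪ξ g, ξ h⟫_ℂ = τ (U ((g : G)⁻¹ * (h : G)) : A) := by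
      rw [hζ, map_mul U, Submonoid.coe_mul, map_mul, ← hU, map_star]
      change ⟪π (U (g : G) : A) ζ, π (U (h : G) : A) ζ⟫_ℂ =
        ⟪ζ, (star (π (U (g : G) : A))) (π (U (h : G) : A) ζ)⟫_ℂ
      rw [ContinuousLinearMap.star_eq_adjoint, ContinuousLinearMap.adjoint_inner_right]
    rw [h1]
    by_cases h2 : g = h
    · rw [if_pos h2, h2, inv_mul_cancel, map_one]
      exact MR.cst_state_one τ hτ
    · rw [if_neg h2]
      apply hτ0
      intro h3
      apply h2
      have h4 : (g : G) = h := by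
        rw [inv_mul_eq_one] at h3
        exact h3
      exact Subtype.ext h4
  have hmul : ∀ g h : D, π (U (g : G) : A) (ξ h) = ξ (g * h) := by
    intro g h
    change π (U (g : G) : A) (π (U (h : G) : A) ζ) = π (U ((g * h : D) : G) : A) ζ
    rw [Subgroup.coe_mul, map_mul U, Submonoid.coe_mul, map_mul]
    rfl
  set C : A := ∑ j, ((e j : ℝ) : ℂ) • (U (x j) : A) with hC
  -- elements of the kernel
  have hker : ∀ j T, j ∉ T → (l1_X x (insert j T))⁻¹ * x j * l1_X x T ∈ f.ker := by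
    intro j T hj
    rw [MonoidHom.mem_ker, map_mul, map_mul, map_inv, l1_fX, l1_fX, l1_Fins _ j T hj]
    simp
  set s : Fin n → Finset (Fin n) → f.ker := fun j T =>
    if h : j ∉ T then ⟨(l1_X x (insert j T))⁻¹ * x j * l1_X x T, hker j T h⟩ else 1 with hs
  have hs' : ∀ j T, j ∉ T → ((s j T : f.ker) : D) =
      (l1_X x (insert j T))⁻¹ * x j * l1_X x T := by
    intro j T hj
    simp only [hs]
    rw [dif_pos hj]
  have key : ∀ ε : ℝ, 0 < ε → (n : ℝ) * (1 - ε) ≤ 2 * ‖C‖ := by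
    intro ε hε
    obtain ⟨K, hK0, hK⟩ := hF (Finset.univ.image fun p : Fin n × Finset (Fin n) => s p.1 p.2) ε hε
    have hK' : ∀ j T, (Nat.card {k // k ∈ K ∧ s j T * k ∉ K} : ℝ) ≤ ε * K.card := fun j T =>
      hK _ (Finset.mem_image.2 ⟨(j, T), Finset.mem_univ _, rfl⟩)
    have hKc : (0 : ℝ) < K.card := by exact_mod_cast hK0.card_pos
    set I : Finset (Finset (Fin n) × f.ker) := Finset.univ ×ˢ K with hI
    set v : H := ∑ i ∈ I, ((l1_e e i.1 : ℝ) : ℂ) • ξ (l1_W f x i) with hv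
    have hvv : ‖v‖ ^ 2 = (2 : ℝ) ^ n * K.card := by
      have h1 := l1_inner ξ hξ I (fun i => l1_e e i.1) (l1_W f x) (l1_W f x)
      rw [l1_diag f x hy hd e he K] at h1
      have h2 := inner_self_eq_norm_sq (𝕜 := ℂ) v
      rw [hv, h1] at h2
      rw [hv, ← h2]
      exact Complex.ofReal_re _
    have hCv : π C v = ∑ j, ((e j : ℝ) : ℂ) •
        ∑ i ∈ I, ((l1_e e i.1 : ℝ) : ℂ) • ξ (x j * l1_W f x i) := by
      have h1 : π C = ∑ j, ((e j : ℝ) : ℂ) • π (U (x j) : A) := by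
        rw [hC, map_sum]
        exact Finset.sum_congr rfl fun j _ => map_smul _ _ _
      rw [h1, sum_apply]
      refine Finset.sum_congr rfl fun j _ => ?_
      rw [smul_apply, hv, map_sum]
      congr 1
      refine Finset.sum_congr rfl fun i _ => ?_
      rw [map_smul, hmul]
    have hre : (∑ j : Fin n, ((2 : ℝ) ^ (n - 1) * ((1 - ε) * K.card))) ≤ ‖⟪v, π C v⟫_ℂ‖ := by
      have h1 : ⟪v, π C v⟫_ℂ = ((∑ j, e j * ∑ i ∈ I, ∑ i' ∈ I, l1_e e i.1 * l1_e e i'.1 *
          (if l1_W f x i = x j * l1_W f x i' then 1 else 0) : ℝ) : ℂ) := by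
        rw [hCv, inner_sum]
        rw [Complex.ofReal_sum]
        refine Finset.sum_congr rfl fun j _ => ?_
        rw [inner_smul_right, Complex.ofReal_mul]
        congr 1
        exact l1_inner ξ hξ I (fun i => l1_e e i.1) (l1_W f x) (fun i => x j * l1_W f x i)
      rw [h1, Complex.norm_real, Real.norm_eq_abs]
      refine le_trans ?_ (le_abs_self _)
      refine Finset.sum_le_sum fun j _ => ?_
      exact l1_off f x hy hd e he K ε s hs' hK' j
    have hle : ‖⟪v, π C v⟫_ℂ‖ ≤ ‖C‖ * ((2 : ℝ) ^ n * K.card) := by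
      rw [← hvv]
      refine (norm_inner_le_norm _ _).trans ?_
      have h3 : ‖π C v‖ ≤ ‖C‖ * ‖v‖ := by
        refine (ContinuousLinearMap.le_opNorm _ _).trans ?_
        gcongr
        exact NonUnitalStarAlgHom.norm_apply_le π C
      calc _ ≤ ‖v‖ * (‖C‖ * ‖v‖) := by gcongr
        _ = _ := by ring
    have h4 := hre.trans hle
    rw [Finset.sum_const, Finset.card_univ, Fintype.card_fin, nsmul_eq_mul] at h4
    rcases Nat.eq_zero_or_pos n with h5 | h5
    · rw [h5]
      simp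
    · obtain ⟨m, rfl⟩ : ∃ m, n = m + 1 := ⟨n - 1, by omega⟩
      rw [Nat.add_sub_cancel] at h4
      have h6 : (0 : ℝ) < 2 ^ m * K.card := by positivity
      have h7 : ((m + 1 : ℕ) : ℝ) * (1 - ε) * (2 ^ m * K.card) ≤ 2 * ‖C‖ * (2 ^ m * K.card) := by
        rw [pow_succ] at h4
        linarith
      exact le_of_mul_le_mul_right h7 h6
  rw [div_le_iff₀ (by norm_num)]
  rw [mul_comm]
  refine le_of_forall_pos_le_add fun δ hδ => ?_
  have h1 := key (δ / (n + 1)) (by positivity)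
  have h2 : (n : ℝ) * (δ / (n + 1)) ≤ δ := by
    rw [mul_div_assoc', div_le_iff₀ (by positivity)]
    nlinarith
  linarith

end Pool.Agent.Helper40.Nil
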